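import Pool.Agent.H.MP_f91ac8_co.Main

namespace Pool.Agent.Results.MP_f91ac8_co.NotRegular
open Pool.Agent.H.MP_f91ac8_co

theorem result : ∃ (d : ℕ) (A : Type) (_ : Fintype A) (u : ℕ → A), 2 ≤ d ∧ IsAutomatic d u ∧
    ¬ IsRegular d (fun n => (PPL u n : ℤ)) :=
  ⟨2, Bool, inferInstance, pd, le_rfl, pd_auto, main⟩

end Pool.Agent.Results.MP_f91ac8_co.NotRegular
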